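import Pool.Agent.W78.EC.Defs

/-!
# EC-M4: the frequency `0`
-/

set_option autoImplicit false
set_option relaxedAutoImplicit false

open Finset Filter
open Pool.Agent.H376R2.MR
open Pool.Agent.W78.GA
open Pool.Agent.W78.EC

namespace Pool.Agent.W991.EC

lemma hD : (0:ℤ) ^ 2 < 4 * 1 := by norm_num

lemma nmR (z : Gi) : (nm z : ℝ) = (z.re : ℝ) ^ 2 + (z.im : ℝ) ^ 2 := by
  have h := nm_castR hD z
  push_cast at h
  rw [h]; ring

lemma card_ball {X : ℝ} (hX : 0 ≤ X) : ((ball 0 1 X).card : ℝ) ≤ 9 * X := by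
  rcases lt_or_ge X 1 with h | h
  · have : ball 0 1 X = ∅ := by
      rw [Finset.eq_empty_iff_forall_notMem]
      intro z hz
      rw [mem_ball hD] at hz
      have h1 : (1:ℝ) ≤ nm z := by exact_mod_cast hz.1
      linarith [hz.2]
    rw [this]
    simp only [Finset.card_empty, Nat.cast_zero]
    linarith
  · set k := ⌊Real.sqrt X⌋₊ with hk
    have hs1 : 1 ≤ Real.sqrt X := by
      rw [Real.one_le_sqrt]; exact h
    have hsub : ball 0 1 X ⊆ ((Icc (-(k:ℤ)) k) ×ˢ (Icc (-(k:ℤ)) k)).image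
        (fun p => (⟨p.1, p.2⟩ : Gi)) := by
      intro z hz
      rw [mem_ball hD] at hz
      have hn := nmR z
      have key : ∀ x : ℤ, (x:ℝ) ^ 2 ≤ X → x ∈ Icc (-(k:ℤ)) k := by
        intro x hx
        have h1 : |(x:ℝ)| ≤ Real.sqrt X := Real.abs_le_sqrt hx
        have h2 : x.natAbs ≤ k := Nat.le_floor (by rw [Nat.cast_natAbs]; push_cast; exact h1)
        rw [Finset.mem_Icc]
        omega
      rw [Finset.mem_image]
      refine ⟨(z.re, z.im), ?_, rfl⟩
      rw [Finset.mem_product]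
      exact ⟨key _ (by nlinarith [hz.2, sq_nonneg (z.im : ℝ)]), key _ (by nlinarith [hz.2, sq_nonneg (z.re : ℝ)])⟩
    have h1 := Finset.card_le_card hsub
    have h2 : (((Icc (-(k:ℤ)) k) ×ˢ (Icc (-(k:ℤ)) k)).image
        (fun p => (⟨p.1, p.2⟩ : Gi))).card ≤ (2 * k + 1) * (2 * k + 1) := by
      refine le_trans Finset.card_image_le ?_
      rw [Finset.card_product]
      have : (Icc (-(k:ℤ)) k).card = 2 * k + 1 := by
        rw [Int.card_Icc]; omega
      rw [this]
    have h3 : ((ball 0 1 X).card : ℝ) ≤ (2 * (k:ℝ) + 1) * (2 * k + 1) := by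
      exact_mod_cast le_trans h1 h2
    have h4 : (k:ℝ) ≤ Real.sqrt X := Nat.floor_le (Real.sqrt_nonneg _)
    have h5 : Real.sqrt X * Real.sqrt X = X := Real.mul_self_sqrt hX
    have h6 : 2 * (k:ℝ) + 1 ≤ 3 * Real.sqrt X := by linarith
    have h7 : (0:ℝ) ≤ 2 * (k:ℝ) + 1 := by positivity
    nlinarith

lemma mul_inj {g : ℕ} (hg : 1 ≤ g) {x y : Gi} (h : (g : Gi) * x = (g : Gi) * y) : x = y := by
  have hp' : (g : ℤ) ≠ 0 := by omega
  have h1 := congrArg QuadraticAlgebra.re h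
  have h2 := congrArg QuadraticAlgebra.im h
  simp only [QuadraticAlgebra.re_mul, QuadraticAlgebra.im_mul, QuadraticAlgebra.re_natCast,
    QuadraticAlgebra.im_natCast, zero_mul, mul_zero, add_zero] at h1 h2
  apply QuadraticAlgebra.ext
  · exact mul_left_cancel₀ hp' h1
  · exact mul_left_cancel₀ hp' h2

lemma g_le {g : ℕ} {X : ℝ} {z : Gi} (hz : z ∈ ball 0 1 X) (h : (g : Gi) ∣ z) : 1 ≤ g ∧ g ≤ ⌊X⌋₊ := by
  rw [mem_ball hD] at hz
  have hz0 : z ≠ 0 := (one_le_nm hD).1 hz.1
  obtain ⟨u, rfl⟩ := h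
  have hg : 1 ≤ g := by
    by_contra hc
    have : g = 0 := by omega
    subst this
    simp at hz0
  have hu : u ≠ 0 := by rintro rfl; simp at hz0
  have h1 : 1 ≤ nm u := (one_le_nm hD).2 hu
  have h2 : nm ((g : Gi) * u) = g ^ 2 * nm u := by rw [nm_mul, nm_natCast]
  refine ⟨hg, Nat.le_floor (le_trans ?_ hz.2)⟩
  have : g ≤ nm ((g : Gi) * u) := by rw [h2]; nlinarith
  exact_mod_cast this

open scoped Classical in
lemma prim_sum (X : ℝ) (f : Gi → ℝ) (S : Gi → Prop) :
    ∑ z ∈ (pball 0 1 X).filter S, f z = ∑ g ∈ Ioc 0 ⌊X⌋₊, (ArithmeticFunction.moebius g : ℝ) *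
      ∑ z ∈ (ball 0 1 X).filter (fun z => S z ∧ (g : Gi) ∣ z), f z := by
  have h1 : ∀ g ∈ Ioc 0 ⌊X⌋₊, (ArithmeticFunction.moebius g : ℝ) *
      ∑ z ∈ (ball 0 1 X).filter (fun z => S z ∧ (g : Gi) ∣ z), f z =
      ∑ z ∈ (ball 0 1 X).filter S, if (g : Gi) ∣ z then (ArithmeticFunction.moebius g : ℝ) * f z else 0 := by
    intro g _
    rw [← Finset.filter_filter, Finset.mul_sum, Finset.sum_filter]
  rw [Finset.sum_congr rfl h1, Finset.sum_comm]
  unfold pball
  have h2 : ((ball 0 1 X).filter prim).filter S = ((ball 0 1 X).filter S).filter prim := by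
    rw [Finset.filter_filter, Finset.filter_filter]
    congr 1
    ext z; tauto
  rw [h2, Finset.sum_filter]
  refine Finset.sum_congr rfl fun z hz => ?_
  have hzb := (Finset.mem_filter.1 hz).1
  have h3 : (Ioc 0 ⌊X⌋₊).filter (fun g => ((g:ℕ) : Gi) ∣ z) = (Int.gcd z.re z.im).divisors := by
    ext g
    rw [Finset.mem_filter, Nat.mem_divisors, Finset.mem_Ioc]
    constructor
    · rintro ⟨-, hg⟩
      rw [natCast_dvd] at hg
      refine ⟨?_, ?_⟩
      · have := Int.dvd_coe_gcd hg.1 hg.2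
        exact_mod_cast this
      · rw [mem_ball hD] at hzb
        have hz0 : z ≠ 0 := (one_le_nm hD).1 hzb.1
        intro h0
        rw [Int.gcd_eq_zero_iff] at h0
        exact hz0 (QuadraticAlgebra.ext h0.1 h0.2)
    · rintro ⟨hg, -⟩
      have h4 : ((g:ℕ) : Gi) ∣ z := natCast_dvd.2
        ⟨(Int.natCast_dvd_natCast.2 hg).trans (Int.gcd_dvd_left _ _),
         (Int.natCast_dvd_natCast.2 hg).trans (Int.gcd_dvd_right _ _)⟩
      have := g_le hzb h4
      exact ⟨⟨by omega, this.2⟩, h4⟩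
  have h5 : ∑ g ∈ Ioc 0 ⌊X⌋₊, (if ((g:ℕ) : Gi) ∣ z then (ArithmeticFunction.moebius g : ℝ) * f z else 0) =
      (∑ g ∈ (Int.gcd z.re z.im).divisors, (ArithmeticFunction.moebius g : ℝ)) * f z := by
    rw [← Finset.sum_filter, h3, Finset.sum_mul]
  rw [h5]
  have h6 : ∑ g ∈ (Int.gcd z.re z.im).divisors, (ArithmeticFunction.moebius g : ℝ) =
      if Int.gcd z.re z.im = 1 then 1 else 0 := by
    have h7 := congrArg (fun F : ArithmeticFunction ℤ => F (Int.gcd z.re z.im))
      ArithmeticFunction.moebius_mul_coe_zeta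
    simp only [ArithmeticFunction.coe_mul_zeta_apply, ArithmeticFunction.one_apply] at h7
    have h8 : ((∑ g ∈ (Int.gcd z.re z.im).divisors, ArithmeticFunction.moebius g : ℤ) : ℝ) =
        ((if Int.gcd z.re z.im = 1 then 1 else 0 : ℤ) : ℝ) := by rw [h7]
    push_cast at h8
    exact h8
  rw [h6]
  by_cases hg : Int.gcd z.re z.im = 1
  · rw [if_pos hg, if_pos (show prim z from hg), one_mul]
  · rw [if_neg hg, if_neg (show ¬ prim z from hg), zero_mul]

open scoped Classical in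
lemma dil_sum {g : ℕ} (hg : 1 ≤ g) (X : ℝ) (S : Gi → Prop) :
    ∑ z ∈ (ball 0 1 X).filter (fun z => S z ∧ (g : Gi) ∣ z), (gl z : ℝ) =
      ∑ z ∈ (ball 0 1 (X / g ^ 2)).filter (fun z => S ((g : Gi) * z)), (gl z : ℝ) := by
  have hg0 : (0:ℝ) < (g:ℝ) ^ 2 := by positivity
  have h1 : (ball 0 1 X).filter (fun z => S z ∧ (g : Gi) ∣ z) =
      ((ball 0 1 (X / g ^ 2)).filter (fun z => S ((g : Gi) * z))).image (fun z => (g : Gi) * z) := by
    ext z
    rw [Finset.mem_filter, Finset.mem_image]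
    constructor
    · rintro ⟨hz, hS, u, rfl⟩
      rw [mem_ball hD] at hz
      refine ⟨u, ?_, rfl⟩
      rw [Finset.mem_filter, mem_ball hD]
      have hu : u ≠ 0 := by
        rintro rfl
        have := (one_le_nm hD).1 hz.1
        simp at this
      refine ⟨⟨(one_le_nm hD).2 hu, ?_⟩, hS⟩
      rw [le_div_iff₀ hg0]
      have h2 : (nm ((g : Gi) * u) : ℝ) = (g:ℝ) ^ 2 * nm u := by
        rw [nm_mul, nm_natCast]; push_cast; ring
      rw [h2] at hz
      linarith [hz.2]
    · rintro ⟨u, hu, rfl⟩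
      rw [Finset.mem_filter, mem_ball hD] at hu
      refine ⟨?_, hu.2, dvd_mul_right _ _⟩
      rw [mem_ball hD, nm_mul, nm_natCast]
      refine ⟨Nat.mul_pos (by positivity) hu.1.1, ?_⟩
      have := hu.1.2
      rw [le_div_iff₀ hg0] at this
      push_cast
      linarith
  rw [h1, Finset.sum_image (fun x _ y _ h => mul_inj hg h)]
  refine Finset.sum_congr rfl fun z hz => ?_
  rw [Finset.mem_filter, mem_ball hD] at hz
  rw [gl_natCast_mul (by omega) hD ((one_le_nm hD).1 hz.1.1)]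

open scoped Classical in
/-- sums over sets of residue classes -/
lemma cls_sum (h : S_PNTG) (M : ℕ) (hM : 1 ≤ M) (ε : ℝ) (hε : 0 < ε) : ∃ X₁ : ℝ, 0 ≤ X₁ ∧
    ∀ X : ℝ, X₁ ≤ X → ∀ P : Gi → Prop, (∀ z z' : Gi, (M : ℤ) ∣ z.re - z'.re → (M : ℤ) ∣ z.im - z'.im →
      (P z ↔ P z')) → |∑ z ∈ (ball 0 1 X).filter P, (gl z : ℝ)| ≤ (M:ℝ) ^ 2 * ε * X := by
  choose X₀ hX₀ using fun r : ℕ × ℕ => h M r.1 r.2 hM ε hε
  refine ⟨∑ r ∈ range M ×ˢ range M, |X₀ r|, Finset.sum_nonneg fun _ _ => abs_nonneg _, ?_⟩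
  intro X hX P hP
  have hM0 : (0:ℤ) < M := by omega
  have hX0 : 0 ≤ X := le_trans (Finset.sum_nonneg fun _ _ => abs_nonneg _) hX
  have hmap : ∀ z ∈ (ball 0 1 X).filter P, ((fun z : Gi => ((z.re % M).toNat, (z.im % M).toNat)) z) ∈
      range M ×ˢ range M := by
    intro z _
    rw [Finset.mem_product, Finset.mem_range, Finset.mem_range]
    have h1 := Int.emod_nonneg z.re hM0.ne'
    have h2 := Int.emod_lt_of_pos z.re hM0
    have h3 := Int.emod_nonneg z.im hM0.ne'
    have h4 := Int.emod_lt_of_pos z.im hM0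
    constructor
    · simp only; omega
    · simp only; omega
  rw [← Finset.sum_fiberwise_of_maps_to hmap]
  have hterm : ∀ r ∈ range M ×ˢ range M, |∑ z ∈ ((ball 0 1 X).filter P).filter
      (fun z => ((fun z : Gi => ((z.re % M).toNat, (z.im % M).toNat)) z) = r), (gl z : ℝ)| ≤ ε * X := by
    intro r hr
    rw [Finset.mem_product, Finset.mem_range, Finset.mem_range] at hr
    have hcong : ∀ z : Gi, (((z.re % M).toNat, (z.im % M).toNat) = r) ↔
        ((M : ℤ) ∣ z.re - (r.1 : ℤ) ∧ (M : ℤ) ∣ z.im - (r.2 : ℤ)) := by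
      intro z
      have key : ∀ (x : ℤ) (s : ℕ), s < M → ((x % M).toNat = s ↔ (M : ℤ) ∣ x - s) := by
        intro x s hs
        have hs' : ((s:ℤ) % M) = s := Int.emod_eq_of_lt (by omega) (by exact_mod_cast hs)
        constructor
        · intro h2
          have h3 : x % M = s := by
            have := Int.emod_nonneg x hM0.ne'
            omega
          exact Int.dvd_of_emod_eq_zero (Int.emod_eq_emod_iff_emod_sub_eq_zero.1 (by rw [h3, hs']))
        · intro h2
          have h3 : x % M = (s:ℤ) % M := (Int.emod_eq_emod_iff_emod_sub_eq_zero).2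
            (Int.emod_eq_zero_of_dvd h2)
          rw [h3, hs']
          simp
      obtain ⟨r1, r2⟩ := r
      rw [Prod.mk.injEq, key _ _ hr.1, key _ _ hr.2]
    by_cases hPr : P (⟨(r.1 : ℤ), (r.2 : ℤ)⟩ : Gi)
    · have e : ((ball 0 1 X).filter P).filter
        (fun z => ((fun z : Gi => ((z.re % M).toNat, (z.im % M).toNat)) z) = r) =
          (ball 0 1 X).filter (fun z => (M : ℤ) ∣ z.re - (r.1 : ℤ) ∧ (M : ℤ) ∣ z.im - (r.2 : ℤ)) := by
        rw [Finset.filter_filter]
        ext z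
        rw [Finset.mem_filter, Finset.mem_filter]
        simp only [hcong]
        constructor
        · rintro ⟨h1, -, h2⟩; exact ⟨h1, h2⟩
        · rintro ⟨h1, h2⟩
          exact ⟨h1, (hP z ⟨(r.1 : ℤ), (r.2 : ℤ)⟩ h2.1 h2.2).2 hPr, h2⟩
      rw [e]
      refine hX₀ r X (le_trans ?_ hX)
      refine le_trans (le_abs_self _) ?_
      exact Finset.single_le_sum (f := fun r => |X₀ r|) (fun _ _ => abs_nonneg _)
        (Finset.mem_product.2 ⟨Finset.mem_range.2 hr.1, Finset.mem_range.2 hr.2⟩)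
    · have e : ((ball 0 1 X).filter P).filter
        (fun z => ((fun z : Gi => ((z.re % M).toNat, (z.im % M).toNat)) z) = r) = ∅ := by
        rw [Finset.eq_empty_iff_forall_notMem]
        intro z hz
        rw [Finset.mem_filter, Finset.mem_filter] at hz
        have h2 := (hcong z).1 hz.2
        exact hPr ((hP z ⟨(r.1 : ℤ), (r.2 : ℤ)⟩ h2.1 h2.2).1 hz.1.2)
      rw [e]
      simp only [Finset.sum_empty, abs_zero]
      positivity
  refine le_trans (Finset.abs_sum_le_sum_abs _ _) (le_trans (Finset.sum_le_sum hterm) ?_)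
  rw [Finset.sum_const, Finset.card_product, Finset.card_range, nsmul_eq_mul]
  push_cast
  exact le_of_eq (by ring)

open scoped Classical in
/-- the summatory function over primitive vectors is small -/
lemma small (h : S_PNTG) (M : ℕ) (S : Gi → Prop) (hM : 1 ≤ M) (hS : Cls M S) (ε : ℝ) (hε : 0 < ε) :
    ∃ X₀ : ℝ, 0 ≤ X₀ ∧ ∀ X : ℝ, X₀ ≤ X → |∑ z ∈ (pball 0 1 X).filter S, (gl z : ℝ)| ≤ ε * X := by
  obtain ⟨G, hG⟩ := exists_nat_ge (18 / ε)
  set G' := G + 1 with hG'
  have hG0 : (0:ℝ) < G' := by positivity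
  have hG1 : 9 / (G':ℝ) ≤ ε / 2 := by
    rw [div_le_iff₀ hε] at hG
    rw [div_le_iff₀ hG0, hG']
    push_cast
    nlinarith
  have hM0 : (0:ℝ) < M := by exact_mod_cast hM
  set ε' := ε / (2 * G' * (M:ℝ) ^ 2) with hε'
  have hε'0 : 0 < ε' := by positivity
  obtain ⟨X₁, hX₁, hcls⟩ := cls_sum h M hM ε' hε'0
  refine ⟨(G':ℝ) ^ 2 * X₁, by positivity, fun X hX => ?_⟩
  have hX0 : 0 ≤ X := le_trans (by positivity) hX
  rw [prim_sum]
  have hterm : ∀ g ∈ Ioc 0 (max G' ⌊X⌋₊), |(ArithmeticFunction.moebius g : ℝ) *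
      ∑ z ∈ (ball 0 1 X).filter (fun z => S z ∧ (g : Gi) ∣ z), (gl z : ℝ)| ≤
      if g ≤ G' then (M:ℝ) ^ 2 * ε' * X else 9 * X * ((g:ℝ) ^ 2)⁻¹ := by
    intro g hg
    rw [Finset.mem_Ioc] at hg
    have hg1 : 1 ≤ g := hg.1
    have hgr : (1:ℝ) ≤ g := by exact_mod_cast hg1
    have hg2 : (1:ℝ) ≤ (g:ℝ) ^ 2 := one_le_pow₀ hgr
    have hmu : |(ArithmeticFunction.moebius g : ℝ)| ≤ 1 := by
      have := ArithmeticFunction.abs_moebius_le_one (n := g)
      exact_mod_cast this
    rw [abs_mul, dil_sum hg1]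
    have h1 : ∀ a : ℝ, 0 ≤ a → |(ArithmeticFunction.moebius g : ℝ)| * a ≤ a := fun a ha =>
      mul_le_of_le_one_left ha hmu
    refine le_trans (h1 _ (abs_nonneg _)) ?_
    have hXg0 : 0 ≤ X / (g:ℝ) ^ 2 := by positivity
    split_ifs with hgG
    · have h2 : X₁ ≤ X / (g:ℝ) ^ 2 := by
        rw [le_div_iff₀ (by positivity)]
        have h3 : (g:ℝ) ^ 2 ≤ (G':ℝ) ^ 2 := pow_le_pow_left₀ (by positivity) (by exact_mod_cast hgG) 2
        calc X₁ * (g:ℝ) ^ 2 ≤ X₁ * (G':ℝ) ^ 2 := mul_le_mul_of_nonneg_left h3 hX₁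
          _ = (G':ℝ) ^ 2 * X₁ := mul_comm _ _
          _ ≤ X := hX
      have h4 := hcls _ h2 (fun z => S ((g : Gi) * z)) (by
        intro z z' h5 h6
        refine hS.per _ _ ?_ ?_
        · have : ((g : Gi) * z).re - ((g : Gi) * z').re = g * (z.re - z'.re) := by
            simp only [QuadraticAlgebra.re_mul, QuadraticAlgebra.re_natCast,
              QuadraticAlgebra.im_natCast]
            ring
          rw [this]; exact h5.mul_left _
        · have : ((g : Gi) * z).im - ((g : Gi) * z').im = g * (z.im - z'.im) := by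
            simp only [QuadraticAlgebra.im_mul, QuadraticAlgebra.re_natCast,
              QuadraticAlgebra.im_natCast]
            ring
          rw [this]; exact h6.mul_left _)
      refine le_trans h4 ?_
      refine mul_le_mul_of_nonneg_left ?_ (by positivity)
      exact div_le_self hX0 hg2
    · refine le_trans (Finset.abs_sum_le_sum_abs _ _) ?_
      have h2 : ∀ z ∈ (ball 0 1 (X / (g:ℝ) ^ 2)).filter (fun z => S ((g : Gi) * z)), |(gl z : ℝ)| ≤ 1 := by
        intro z _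
        rcases gl_eq z with h3 | h3 <;> rw [h3] <;> norm_num
      refine le_trans (Finset.sum_le_card_nsmul _ _ _ h2) ?_
      rw [nsmul_eq_mul, mul_one]
      have h3 : (((ball 0 1 (X / (g:ℝ) ^ 2)).filter (fun z => S ((g : Gi) * z))).card : ℝ) ≤
          ((ball 0 1 (X / (g:ℝ) ^ 2)).card : ℝ) := by exact_mod_cast Finset.card_filter_le _ _
      refine le_trans h3 (le_trans (card_ball hXg0) ?_)
      rw [div_eq_mul_inv, mul_assoc]
  have hsub : Ioc 0 ⌊X⌋₊ ⊆ Ioc 0 (max G' ⌊X⌋₊) := Finset.Ioc_subset_Ioc_right (le_max_right _ _)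
  refine le_trans (Finset.abs_sum_le_sum_abs _ _) ?_
  refine le_trans (Finset.sum_le_sum_of_subset_of_nonneg hsub fun _ _ _ => abs_nonneg _) ?_
  refine le_trans (Finset.sum_le_sum hterm) ?_
  rw [← Finset.sum_Ioc_consecutive _ (Nat.zero_le G') (le_max_left G' ⌊X⌋₊)]
  have s1 : ∑ g ∈ Ioc 0 G', (if g ≤ G' then (M:ℝ) ^ 2 * ε' * X else 9 * X * ((g:ℝ) ^ 2)⁻¹) = ε / 2 * X := by
    rw [Finset.sum_congr rfl (fun g hg => if_pos (Finset.mem_Ioc.1 hg).2), Finset.sum_const,
      Nat.card_Ioc, nsmul_eq_mul, Nat.sub_zero, hε']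
    field_simp
  have s2 : ∑ g ∈ Ioc G' (max G' ⌊X⌋₊), (if g ≤ G' then (M:ℝ) ^ 2 * ε' * X else 9 * X * ((g:ℝ) ^ 2)⁻¹) ≤
      ε / 2 * X := by
    rw [Finset.sum_congr rfl (fun g hg => if_neg (not_le.2 (Finset.mem_Ioc.1 hg).1)), ← Finset.mul_sum]
    have h1 := sum_Ioc_inv_sq_le_sub (α := ℝ) (k := G') (n := max G' ⌊X⌋₊) (by omega) (le_max_left _ _)
    have h2 : (0:ℝ) ≤ ((max G' ⌊X⌋₊ : ℕ) : ℝ)⁻¹ := by positivity
    have h3 : ∑ i ∈ Ioc G' (max G' ⌊X⌋₊), ((i:ℝ) ^ 2)⁻¹ ≤ (G':ℝ)⁻¹ := by linarith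
    calc 9 * X * ∑ i ∈ Ioc G' (max G' ⌊X⌋₊), ((i:ℝ) ^ 2)⁻¹ ≤ 9 * X * (G':ℝ)⁻¹ :=
          mul_le_mul_of_nonneg_left h3 (by positivity)
      _ = 9 / (G':ℝ) * X := by ring
      _ ≤ ε / 2 * X := mul_le_mul_of_nonneg_right hG1 hX0
  linarith

/-! ## partial summation -/

lemma tele (φ : ℕ → ℝ) {m N : ℕ} (h : m ≤ N) : ∑ n ∈ Ico m N, (φ n - φ (n + 1)) = φ m - φ N := by
  induction N, h using Nat.le_induction with
  | base => simp
  | succ N hN ih => rw [Finset.sum_Ico_succ_top hN, ih]; ring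

open scoped Classical in
theorem mw0 (h : S_PNTG) : S_MW0 := by
  intro M S hM hS Λ wt hwt η hη
  have hΛ : 0 ≤ Λ := by
    have := hwt.lip 1 0
    have h2 := abs_nonneg (wt 1 - wt 0)
    norm_num at this
    linarith
  set E := Real.exp 1 with hE
  have hE0 : 0 < E := Real.exp_pos 1
  have hE1 : 1 < E := by rw [hE]; exact Real.one_lt_exp_iff.2 one_pos
  set ε := η / ((Λ + 1) * E ^ 2) with hε
  have hε0 : 0 < ε := by positivity
  obtain ⟨X₀, hX₀, hsm⟩ := small h M S hM hS ε hε0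
  refine ⟨E * (X₀ + 1) + 1, fun Y hY => ?_⟩
  have hY0 : 0 < Y := by
    have : 0 ≤ E * (X₀ + 1) := by positivity
    linarith
  set φ : ℕ → ℝ := fun n => wt (Real.log n - Real.log Y) / n with hφ
  set A : ℕ → ℝ := fun n => ∑ z ∈ (pball 0 1 (n:ℝ)).filter S, (gl z : ℝ) with hA
  set N := ⌊E * Y⌋₊ + 1 with hN
  have hEY : 0 ≤ E * Y := by positivity
  have hNE : E * Y < N := by rw [hN]; push_cast; exact Nat.lt_floor_add_one _
  have hφN : φ N = 0 := by
    have h1 : (1:ℝ) ≤ Real.log N - Real.log Y := by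
      have h2 : Real.log (E * Y) ≤ Real.log N := Real.log_le_log (by positivity) hNE.le
      rw [Real.log_mul hE0.ne' hY0.ne', hE, Real.log_exp] at h2
      linarith
    simp only [hφ]
    rw [hwt.supp _ (le_trans h1 (le_abs_self _)), zero_div]
  -- the identity
  have hid : GS wt S Y 0 = ((∑ n ∈ Ico 1 N, (φ n - φ (n + 1)) * A n : ℝ) : ℂ) := by
    have e1 : GS wt S Y 0 = ((∑ z ∈ (pball 0 1 (E * Y)).filter S, (gl z : ℝ) * φ (nm z) : ℝ) : ℂ) := by
      unfold GS DPG
      rw [Finset.sum_filter, Complex.ofReal_sum]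
      refine Finset.sum_congr rfl fun z _ => ?_
      rw [ps_zero, mul_one]
      simp only [hφ]
      split_ifs with hz
      · rfl
      · simp
    rw [e1]
    congr 1
    have e2 : ∀ z ∈ (pball 0 1 (E * Y)).filter S, (gl z : ℝ) * φ (nm z) =
        ∑ n ∈ Ico 1 N, if nm z ≤ n then (φ n - φ (n + 1)) * (gl z : ℝ) else 0 := by
      intro z hz
      rw [Finset.mem_filter, mem_pball hD] at hz
      have h1 : nm z ≤ N := by
        have : nm z ≤ ⌊E * Y⌋₊ := Nat.le_floor hz.1.2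
        omega
      have h2 : 1 ≤ nm z := (one_le_nm hD).2 (prim_ne_zero hz.1.1)
      have h3 := tele φ h1
      rw [hφN, sub_zero] at h3
      rw [← h3, ← Finset.sum_filter]
      have h4 : (Ico 1 N).filter (fun n => nm z ≤ n) = Ico (nm z) N := by
        ext n
        rw [Finset.mem_filter, Finset.mem_Ico, Finset.mem_Ico]
        omega
      rw [h4, Finset.mul_sum]
      exact Finset.sum_congr rfl fun n _ => mul_comm _ _
    rw [Finset.sum_congr rfl e2, Finset.sum_comm]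
    refine Finset.sum_congr rfl fun n hn => ?_
    rw [Finset.mem_Ico] at hn
    simp only [hA]
    rw [← Finset.sum_filter, Finset.mul_sum]
    have h5 : ((pball 0 1 (E * Y)).filter S).filter (fun z => nm z ≤ n) =
        (pball 0 1 (n:ℝ)).filter S := by
      ext z
      rw [Finset.mem_filter, Finset.mem_filter, Finset.mem_filter, mem_pball hD, mem_pball hD]
      have h6 : (n:ℝ) ≤ E * Y := by
        have h7 : n ≤ ⌊E * Y⌋₊ := by omega
        exact le_trans (by exact_mod_cast h7) (Nat.floor_le hEY)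
      constructor
      · rintro ⟨⟨⟨a1, a2⟩, a3⟩, a4⟩
        exact ⟨⟨a1, by exact_mod_cast a4⟩, a3⟩
      · rintro ⟨⟨a1, a2⟩, a3⟩
        exact ⟨⟨⟨a1, le_trans a2 h6⟩, a3⟩, by exact_mod_cast a2⟩
    rw [h5]
  rw [hid, Complex.norm_real, Real.norm_eq_abs]
  -- the bound
  have hterm : ∀ n ∈ Ico 1 N, |(φ n - φ (n + 1)) * A n| ≤ ε * (Λ + 1) * (E / Y) := by
    intro n hn
    rw [Finset.mem_Ico] at hn
    have hn1 : (1:ℝ) ≤ n := by exact_mod_cast hn.1
    have hn0 : (0:ℝ) < n := by linarith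
    rcases le_or_gt ((n:ℝ) + 1) (Y / E) with hle | hgt
    · have hz : ∀ m : ℕ, 1 ≤ m → (m:ℝ) ≤ Y / E → φ m = 0 := by
        intro m hm hmY
        have hm0 : (0:ℝ) < m := by exact_mod_cast hm
        have h1 : Real.log m - Real.log Y ≤ -1 := by
          have h2 : Real.log m ≤ Real.log (Y / E) := Real.log_le_log hm0 hmY
          rw [Real.log_div hY0.ne' hE0.ne', hE, Real.log_exp] at h2
          linarith
        simp only [hφ]
        rw [hwt.supp _ (by rw [le_abs]; right; linarith), zero_div]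
      rw [hz n hn.1 (by linarith), hz (n + 1) (by omega) (by push_cast; exact hle)]
      simp only [sub_self, zero_mul, abs_zero]
      positivity
    · have hXn : X₀ ≤ (n:ℝ) := by
        have h1 : E * (X₀ + 1) ≤ Y := by linarith
        have h2 : X₀ + 1 ≤ Y / E := by rw [le_div_iff₀ hE0]; linarith
        linarith
      have hAn : |A n| ≤ ε * n := hsm n hXn
      have hdiff : |φ n - φ (n + 1)| ≤ (Λ + 1) / (n * (n + 1)) := by
        have hlog : |(Real.log ((n + 1 : ℕ) : ℝ) - Real.log Y) - (Real.log n - Real.log Y)| ≤ 1 / n := by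
          have h1 : (Real.log ((n + 1 : ℕ) : ℝ) - Real.log Y) - (Real.log n - Real.log Y) =
              Real.log (1 + 1 / n) := by
            rw [show (1:ℝ) + 1 / n = ((n + 1 : ℕ) : ℝ) / n by push_cast; field_simp,
              Real.log_div (by positivity) hn0.ne']
            ring
          rw [h1, abs_of_nonneg (Real.log_nonneg (by
            have : (0:ℝ) ≤ 1 / n := by positivity
            linarith))]
          have := Real.log_le_sub_one_of_pos (x := 1 + 1 / n) (by positivity)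
          linarith
        have h1 : φ n - φ (n + 1) = wt (Real.log n - Real.log Y) * (1 / (n * (n + 1))) -
            (wt (Real.log ((n + 1 : ℕ) : ℝ) - Real.log Y) - wt (Real.log n - Real.log Y)) / (n + 1) := by
          simp only [hφ]
          push_cast
          field_simp
          ring
        rw [h1]
        refine le_trans (abs_sub _ _) ?_
        have h2 : |wt (Real.log n - Real.log Y) * (1 / ((n:ℝ) * (n + 1)))| ≤ 1 / (n * (n + 1)) := by
          rw [abs_mul, abs_of_nonneg (by positivity : (0:ℝ) ≤ 1 / ((n:ℝ) * (n + 1)))]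
          exact mul_le_of_le_one_left (by positivity) (hwt.bd _)
        have h3 : |(wt (Real.log ((n + 1 : ℕ) : ℝ) - Real.log Y) - wt (Real.log n - Real.log Y)) / ((n:ℝ) + 1)| ≤
            Λ * (1 / n) / (n + 1) := by
          rw [abs_div, abs_of_nonneg (by positivity : (0:ℝ) ≤ (n:ℝ) + 1)]
          refine div_le_div_of_nonneg_right ?_ (by positivity)
          exact le_trans (hwt.lip _ _) (mul_le_mul_of_nonneg_left hlog hΛ)
        have h4 : (Λ + 1) / ((n:ℝ) * (n + 1)) = 1 / (n * (n + 1)) + Λ * (1 / n) / (n + 1) := by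
          field_simp
          ring
        rw [h4]
        exact add_le_add h2 h3
      rw [abs_mul]
      calc |φ n - φ (n + 1)| * |A n| ≤ (Λ + 1) / (n * (n + 1)) * (ε * n) :=
            mul_le_mul hdiff hAn (abs_nonneg _) (by positivity)
        _ = ε * (Λ + 1) * (1 / (n + 1)) := by field_simp
        _ ≤ ε * (Λ + 1) * (E / Y) := by
            refine mul_le_mul_of_nonneg_left ?_ (by positivity)
            have h1 : E / Y = 1 / (Y / E) := by field_simp
            rw [h1]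
            exact one_div_le_one_div_of_le (by positivity) hgt.le
  refine le_trans (Finset.abs_sum_le_sum_abs _ _) (le_trans (Finset.sum_le_card_nsmul _ _ _ hterm) ?_)
  rw [Nat.card_Ico, nsmul_eq_mul]
  have h1 : ((N - 1 : ℕ) : ℝ) ≤ E * Y := by
    rw [hN, Nat.add_sub_cancel]
    exact Nat.floor_le hEY
  calc ((N - 1 : ℕ) : ℝ) * (ε * (Λ + 1) * (E / Y)) ≤ E * Y * (ε * (Λ + 1) * (E / Y)) :=
        mul_le_mul_of_nonneg_right h1 (by positivity)
    _ = η := by rw [hε]; field_simp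

end Pool.Agent.W991.EC
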